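import Mathlib

set_option autoImplicit false

open Matrix Polynomial

namespace Pool.Agent.Y828.PM

variable {n : ℕ}

/-- The real power `A ^ r` of a Hermitian matrix by functional calculus. -/
noncomputable def mpow (r : ℝ) (A : Matrix (Fin n) (Fin n) ℂ) : Matrix (Fin n) (Fin n) ℂ :=
  cfc (fun x : ℝ => x ^ r) A

/-- The weighted power mean of order `p`: `(t X^p + (1-t) Y^p)^(1/p)`. -/
noncomputable def powerMean (p t : ℝ) (X Y : Matrix (Fin n) (Fin n) ℂ) :
    Matrix (Fin n) (Fin n) ℂ :=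
  mpow (1 / p) ((t : ℂ) • mpow p X + ((1 - t : ℝ) : ℂ) • mpow p Y)

/-- The squared Euclidean distance from the mean with weight `t` to `Y`. -/
noncomputable def distSq (p : ℝ) (X Y : Matrix (Fin n) (Fin n) ℂ) (t : ℝ) : ℝ :=
  (Matrix.trace ((Y - powerMean p t X Y) ^ 2)).re

/-- `P + ε (1 - P)`. -/
noncomputable def thick (ε : ℝ) (P : Matrix (Fin n) (Fin n) ℂ) : Matrix (Fin n) (Fin n) ℂ :=
  P + (ε : ℂ) • (1 - P)

theorem cfc_diagonal (g : ℝ → ℝ) (d : Fin n → ℝ) :
    cfc g (diagonal (fun i => (d i : ℂ)) : Matrix (Fin n) (Fin n) ℂ)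
      = diagonal (fun i => ((g (d i) : ℝ) : ℂ)) := by
  classical
  set A : Matrix (Fin n) (Fin n) ℂ := diagonal (fun i => (d i : ℂ)) with hA
  have hsa : IsSelfAdjoint A := by
    rw [isSelfAdjoint_iff, star_eq_conjTranspose, hA, diagonal_conjTranspose]
    congr 1
    funext i
    simp
  have hspec : ∀ x ∈ spectrum ℝ A, ∃ i, d i = x := by
    intro x hx
    have h1 : (algebraMap ℝ ℂ x) ∈ spectrum ℂ A := by
      rwa [spectrum.algebraMap_mem_iff]
    rw [hA, spectrum_diagonal] at h1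
    obtain ⟨i, hi⟩ := h1
    refine ⟨i, ?_⟩
    have : ((d i : ℝ) : ℂ) = (x : ℂ) := hi
    exact_mod_cast this
  set s : Finset ℝ := Finset.univ.image d with hs
  set q : ℝ[X] := Lagrange.interpolate s id g with hq
  have heval : ∀ i, q.eval (d i) = g (d i) := by
    intro i
    have hmem : d i ∈ s := by
      rw [hs]; exact Finset.mem_image_of_mem _ (Finset.mem_univ i)
    have := Lagrange.eval_interpolate_at_node (s := s) (v := id) (r := g)
      (Function.injective_id.injOn) hmem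
    exact this
  have h1 : cfc g A = cfc q.eval A := by
    apply cfc_congr
    intro x hx
    obtain ⟨i, hi⟩ := hspec x hx
    subst hi
    exact (heval i).symm
  rw [h1, cfc_polynomial q A hsa]
  have h2 : aeval A q = diagonal (fun i => aeval ((d i : ℝ) : ℂ) q) := by
    have h3 := Polynomial.aeval_algHom_apply (diagonalAlgHom ℝ : (Fin n → ℂ) →ₐ[ℝ] _)
      (fun i => (d i : ℂ)) q
    have h4 : (diagonalAlgHom ℝ : (Fin n → ℂ) →ₐ[ℝ] Matrix (Fin n) (Fin n) ℂ)
      (fun i => (d i : ℂ)) = A := rfl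
    rw [h4] at h3
    rw [h3]
    change diagonal _ = _
    congr 1
    funext i
    have := Polynomial.aeval_algHom_apply (Pi.evalAlgHom ℝ (fun _ : Fin n => ℂ) i)
      (fun i => (d i : ℂ)) q
    exact this.symm
  rw [h2]
  congr 1
  funext i
  have h5 : aeval (algebraMap ℝ ℂ (d i)) q = algebraMap ℝ ℂ (aeval (d i) q) :=
    Polynomial.aeval_algebraMap_apply ℂ (d i) q
  have h6 : aeval (d i) q = g (d i) := by
    rw [Polynomial.coe_aeval_eq_eval]
    exact heval i
  rw [h6] at h5
  exact h5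

theorem cfc_proj (g : ℝ → ℝ) (P : Matrix (Fin n) (Fin n) ℂ) (hP : P.IsHermitian)
    (hPP : P * P = P) :
    cfc g P = ((g 1 : ℝ) : ℂ) • P + ((g 0 : ℝ) : ℂ) • (1 - P) := by
  have hsa : IsSelfAdjoint P := hP
  have hspec : ∀ x ∈ spectrum ℝ P, x = 0 ∨ x = 1 := by
    intro x hx
    have h2 : (x * x - x) ∈ spectrum ℝ (P * P - P) := by
      have h3 := spectrum.subset_polynomial_aeval P (X * X - X : ℝ[X])
      have h4 : aeval P (X * X - X : ℝ[X]) = P * P - P := by simp
      rw [h4] at h3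
      exact h3 ⟨x, hx, by simp⟩
    rw [hPP, sub_self] at h2
    have h5 : x * x - x = 0 := by
      by_contra hne
      apply h2
      rw [spectrum.mem_resolventSet_iff, sub_zero]
      exact (IsUnit.mk0 _ hne).map (algebraMap ℝ (Matrix (Fin n) (Fin n) ℂ))
    have h6 : x * (x - 1) = 0 := by linarith
    rcases mul_eq_zero.mp h6 with h | h
    · exact Or.inl h
    · exact Or.inr (by linarith)
  set q : ℝ[X] := C (g 0) + C (g 1 - g 0) * X with hq
  have h1 : cfc g P = cfc q.eval P := by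
    apply cfc_congr
    intro x hx
    rcases hspec x hx with h | h
    · subst h; simp [hq]
    · subst h; simp [hq]
  rw [h1, cfc_polynomial q P hsa]
  have h7 : aeval P q = algebraMap ℝ _ (g 0) + algebraMap ℝ _ (g 1 - g 0) * P := by
    simp [hq]
  rw [h7]
  ext i j
  simp only [Matrix.add_apply, Matrix.smul_apply, Matrix.sub_apply, smul_eq_mul]
  rw [Algebra.algebraMap_eq_smul_one, Algebra.algebraMap_eq_smul_one, smul_mul_assoc, one_mul]
  simp only [Matrix.smul_apply, Complex.real_smul]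
  push_cast
  ring

theorem cfc_thick (g : ℝ → ℝ) (ε : ℝ) (P : Matrix (Fin n) (Fin n) ℂ) (hP : P.IsHermitian)
    (hPP : P * P = P) :
    cfc g (thick ε P) = ((g 1 : ℝ) : ℂ) • P + ((g ε : ℝ) : ℂ) • (1 - P) := by
  have h1 : thick ε P = cfc (fun x : ℝ => ε + (1 - ε) * x) P := by
    rw [cfc_proj _ P hP hPP, thick]
    ext i j
    simp
  have hfin : (spectrum ℝ P).Finite := by
    exact Matrix.finite_real_spectrum
  have hsa : IsSelfAdjoint P := hP
  have h2 : cfc g (cfc (fun x : ℝ => ε + (1 - ε) * x) P)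
      = cfc (g ∘ (fun x : ℝ => ε + (1 - ε) * x)) P :=
    (cfc_comp g (fun x : ℝ => ε + (1 - ε) * x) P hsa
      ((hfin.image _).continuousOn _) (hfin.continuousOn _)).symm
  rw [h1, h2, cfc_proj _ P hP hPP]
  simp

theorem mpow_thick (r : ℝ) (ε : ℝ) (P : Matrix (Fin n) (Fin n) ℂ) (hP : P.IsHermitian)
    (hPP : P * P = P) : mpow r (thick ε P) = thick (ε ^ r) P := by
  rw [mpow, cfc_thick _ ε P hP hPP, thick]
  simp

end Pool.Agent.Y828.PM
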