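import Mathlib
import Pool.Agent.Y828.PM.Basic

set_option autoImplicit false

open Matrix Polynomial
open scoped ComplexOrder

namespace Pool.Agent.Y828.PM

variable {n : ℕ}

/-- the vector `(x, y, 0, …)`, real entries -/
noncomputable def vec2 (n : ℕ) (x y : ℝ) : Fin n → ℂ :=
  fun i => if (i : ℕ) = 0 then (x : ℂ) else if (i : ℕ) = 1 then (y : ℂ) else 0

theorem star_vec2 (x y : ℝ) : star (vec2 n x y) = vec2 n x y := by
  funext i
  simp only [Pi.star_apply, vec2]
  split_ifs <;> simp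

theorem dot_vec2 (hn : 2 ≤ n) (x y x' y' : ℝ) :
    (vec2 n x y) ⬝ᵥ (vec2 n x' y') = ((x * x' + y * y' : ℝ) : ℂ) := by
  obtain ⟨m, rfl⟩ : ∃ m, n = m + 2 := ⟨n - 2, by omega⟩
  rw [dotProduct, Fin.sum_univ_succ, Fin.sum_univ_succ]
  have h0 : ∀ i : Fin m, vec2 (m + 2) x y i.succ.succ * vec2 (m + 2) x' y' i.succ.succ = 0 := by
    intro i
    simp [vec2]
  rw [Finset.sum_congr rfl (fun i _ => h0 i)]
  simp [vec2]

/-- the rank one projection onto `(x, y, 0, …)` -/
noncomputable def proj2 (n : ℕ) (x y : ℝ) : Matrix (Fin n) (Fin n) ℂ :=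
  vecMulVec (vec2 n x y) (star (vec2 n x y))

theorem proj2_herm (x y : ℝ) : (proj2 n x y).IsHermitian := by
  rw [proj2]
  exact (posSemidef_vecMulVec_self_star _).isHermitian

theorem proj2_psd (x y : ℝ) : (proj2 n x y).PosSemidef := by
  rw [proj2]
  exact (posSemidef_vecMulVec_self_star _)

theorem proj2_mul (hn : 2 ≤ n) (x y x' y' : ℝ) :
    proj2 n x y * proj2 n x' y' =
      ((x * x' + y * y' : ℝ) : ℂ) • vecMulVec (vec2 n x y) (vec2 n x' y') := by
  rw [proj2, proj2, star_vec2, star_vec2, vecMulVec_mul_vecMulVec, dot_vec2 hn]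
  ext i j
  simp [vecMulVec_apply]
  try ring

theorem proj2_idem (hn : 2 ≤ n) (x y : ℝ) (h : x * x + y * y = 1) :
    proj2 n x y * proj2 n x y = proj2 n x y := by
  rw [proj2_mul hn, h, proj2, star_vec2]
  simp

theorem trace_vv (hn : 2 ≤ n) (x y x' y' : ℝ) :
    trace (vecMulVec (vec2 n x y) (vec2 n x' y')) = ((x * x' + y * y' : ℝ) : ℂ) := by
  rw [trace_vecMulVec, dot_vec2 hn]

theorem trace_proj2 (hn : 2 ≤ n) (x y : ℝ) (h : x * x + y * y = 1) :
    trace (proj2 n x y) = 1 := by
  rw [proj2, star_vec2, trace_vv hn, h]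
  simp

theorem rank_proj2 (hn : 2 ≤ n) (x y : ℝ) (h : x * x + y * y = 1) :
    (proj2 n x y).rank = 1 := by
  have h1 : (proj2 n x y).rank ≤ 1 := by
    rw [proj2]
    exact rank_vecMulVec_le _ _
  have h2 : (proj2 n x y).rank ≠ 0 := by
    intro h0
    have h3 : proj2 n x y = 0 := by
      rw [Matrix.rank, Submodule.finrank_eq_zero, LinearMap.range_eq_bot] at h0
      ext i j
      have h5 := congrFun (LinearMap.congr_fun h0 (Pi.single j 1)) i
      simpa using h5
    have h4 := trace_proj2 hn x y h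
    rw [h3] at h4
    simp at h4
  omega

/-- squared distance between the two projections -/
theorem trace_diff (hn : 2 ≤ n) (a b : ℝ) (ha : 0 ≤ a) (hb : 0 ≤ b) (hab : a + b = 1) :
    trace ((proj2 n (√a) (-√b) - proj2 n (√a) (√b)) *
      (proj2 n (√a) (-√b) - proj2 n (√a) (√b))) = ((8 * a * b : ℝ) : ℂ) := by
  have hsa : √a * √a = a := Real.mul_self_sqrt ha
  have hsb : √b * √b = b := Real.mul_self_sqrt hb
  have e1 : √a * √a + -√b * -√b = 1 := by nlinarith
  have e2 : √a * √a + √b * √b = 1 := by nlinarith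
  have e3 : √a * √a + -√b * √b = a - b := by nlinarith
  have e4 : √a * √a + √b * -√b = a - b := by nlinarith
  rw [sub_mul, mul_sub, mul_sub, proj2_idem hn _ _ e1, proj2_idem hn _ _ e2,
    proj2_mul hn, proj2_mul hn, e3, e4]
  simp only [trace_sub, trace_smul, trace_proj2 hn _ _ e1, trace_proj2 hn _ _ e2, trace_vv hn,
    e3, e4, smul_eq_mul]
  have hb' : b = 1 - a := by linarith
  subst hb'
  push_cast
  ring

/-- the average of the two projections is diagonal -/
theorem avg_proj (a b : ℝ) (ha : 0 ≤ a) (hb : 0 ≤ b) (ε : ℝ) :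
    ((1 / 2 : ℝ) : ℂ) • thick ε (proj2 n (√a) (√b)) +
      ((1 / 2 : ℝ) : ℂ) • thick ε (proj2 n (√a) (-√b)) =
    diagonal (fun i : Fin n =>
      (((if (i : ℕ) = 0 then ε + (1 - ε) * a else if (i : ℕ) = 1 then ε + (1 - ε) * b else ε) : ℝ) : ℂ)) := by
  have hsa : (√a : ℂ) * √a = a := by
    exact_mod_cast congrArg (fun x : ℝ => (x : ℂ)) (Real.mul_self_sqrt ha)
  have hsb : (√b : ℂ) * √b = b := by
    exact_mod_cast congrArg (fun x : ℝ => (x : ℂ)) (Real.mul_self_sqrt hb)
  ext i j
  simp only [thick, proj2, star_vec2, Matrix.add_apply, Matrix.smul_apply, vecMulVec_apply,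
    Matrix.sub_apply, smul_eq_mul, diagonal_apply, Matrix.one_apply, vec2]
  by_cases hij : i = j
  · subst hij
    simp only [if_true]
    split_ifs with h0 h1
    · push_cast
      linear_combination (1 - (ε : ℂ)) * hsa
    · push_cast
      linear_combination (1 - (ε : ℂ)) * hsb
    · push_cast
      ring
  · have hij' : (i : ℕ) ≠ (j : ℕ) := fun h => hij (Fin.ext h)
    simp only [hij, if_false]
    split_ifs with h1 h2 h3 h4 h5 h6
    all_goals first
      | (exfalso; omega)
      | (push_cast; ring)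

theorem thick_herm {ε : ℝ} {P : Matrix (Fin n) (Fin n) ℂ} (hP : P.IsHermitian) :
    (thick ε P).IsHermitian := by
  rw [thick]
  apply hP.add
  have h1 : (1 - P).IsHermitian := (isHermitian_one).sub hP
  rw [IsHermitian, conjTranspose_smul, h1.eq]
  simp

theorem trace_sq_ge (A : Matrix (Fin n) (Fin n) ℂ) (hA : A.IsHermitian) (k : Fin n) :
    ((A k k).re) ^ 2 ≤ (trace (A ^ 2)).re := by
  have h1 : (trace (A ^ 2)).re = ∑ i, ∑ j, Complex.normSq (A i j) := by
    rw [pow_two, trace]
    simp only [diag_apply, Matrix.mul_apply, Complex.re_sum]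
    refine Finset.sum_congr rfl fun i _ => Finset.sum_congr rfl fun j _ => ?_
    have h2 : A j i = star (A i j) := by
      conv_lhs => rw [← hA.eq]
      rfl
    rw [h2, Complex.star_def, Complex.mul_conj]
    simp
  rw [h1]
  calc ((A k k).re) ^ 2 ≤ Complex.normSq (A k k) := by
        rw [Complex.normSq_apply]; nlinarith [mul_self_nonneg (A k k).im]
    _ ≤ ∑ j, Complex.normSq (A k j) :=
        Finset.single_le_sum (f := fun j => Complex.normSq (A k j))
          (fun j _ => Complex.normSq_nonneg _) (Finset.mem_univ k)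
    _ ≤ ∑ i, ∑ j, Complex.normSq (A i j) :=
        Finset.single_le_sum (f := fun i => ∑ j, Complex.normSq (A i j))
          (fun i _ => Finset.sum_nonneg fun j _ => Complex.normSq_nonneg _) (Finset.mem_univ k)

theorem powerMean_one {p : ℝ} (hp : 0 < p) {ε : ℝ} (hε : 0 ≤ ε)
    {P : Matrix (Fin n) (Fin n) ℂ} (hP : P.IsHermitian) (hPP : P * P = P)
    (Y : Matrix (Fin n) (Fin n) ℂ) :
    powerMean p 1 (thick ε P) Y = thick ε P := by
  rw [powerMean, mpow_thick p ε P hP hPP]
  have h1 : ((1 : ℝ) : ℂ) • thick (ε ^ p) P + ((1 - 1 : ℝ) : ℂ) • mpow p Y = thick (ε ^ p) P := by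
    simp
  rw [h1, mpow_thick _ _ P hP hPP, ← Real.rpow_mul hε, mul_one_div_cancel hp.ne', Real.rpow_one]

end Pool.Agent.Y828.PM
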