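import Mathlib
import Pool.Agent.Y828.PM.Main

set_option autoImplicit false

open Matrix Polynomial
open scoped ComplexOrder

namespace Pool.Agent.Y828.PM

variable {n : ℕ}

theorem thick_eq (ε : ℝ) (P : Matrix (Fin n) (Fin n) ℂ) :
    thick ε P = ((1 - ε : ℝ) : ℂ) • P + (ε : ℂ) • (1 : Matrix (Fin n) (Fin n) ℂ) := by
  rw [thick]
  ext i j
  simp only [Matrix.add_apply, Matrix.smul_apply, Matrix.sub_apply, smul_eq_mul]
  push_cast
  ring

theorem thick_psd {ε : ℝ} (h0 : 0 ≤ ε) (h1 : ε ≤ 1) {P : Matrix (Fin n) (Fin n) ℂ}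
    (hP : P.PosSemidef) : (thick ε P).PosSemidef := by
  rw [thick_eq]
  have a1 : (0 : ℂ) ≤ ((1 - ε : ℝ) : ℂ) := by
    rw [Complex.zero_le_real]; linarith
  have a2 : (0 : ℂ) ≤ (ε : ℂ) := by
    rw [Complex.zero_le_real]; exact h0
  exact (hP.smul a1).add (PosSemidef.one.smul a2)

theorem thick_pd {ε : ℝ} (h0 : 0 < ε) (h1 : ε ≤ 1) {P : Matrix (Fin n) (Fin n) ℂ}
    (hP : P.PosSemidef) : (thick ε P).PosDef := by
  rw [thick_eq]
  have a1 : (0 : ℂ) ≤ ((1 - ε : ℝ) : ℂ) := by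
    rw [Complex.zero_le_real]; linarith
  have a2 : (0 : ℂ) < (ε : ℂ) := by
    rw [Complex.zero_lt_real]; exact h0
  exact (PosDef.one.smul a2).posSemidef_add (hP.smul a1)

theorem distSq_one (hn : 2 ≤ n) {p : ℝ} (hp : 0 < p) {ε : ℝ} (h0 : 0 ≤ ε) {a b : ℝ}
    (ha : 0 ≤ a) (hb : 0 ≤ b) (hab : a + b = 1) :
    distSq p (thick ε (proj2 n (√a) (√b))) (thick ε (proj2 n (√a) (-√b))) 1 =
      (1 - ε) ^ 2 * (8 * a * b) := by
  have hsa : √a * √a = a := Real.mul_self_sqrt ha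
  have hsb : √b * √b = b := Real.mul_self_sqrt hb
  have e2 : √a * √a + √b * √b = 1 := by nlinarith
  rw [distSq, powerMean_one hp h0 (proj2_herm _ _) (proj2_idem hn _ _ e2)]
  have h2 : thick ε (proj2 n (√a) (-√b)) - thick ε (proj2 n (√a) (√b)) =
      ((1 - ε : ℝ) : ℂ) • (proj2 n (√a) (-√b) - proj2 n (√a) (√b)) := by
    rw [thick_eq, thick_eq, smul_sub]
    abel
  rw [h2, pow_two, smul_mul_smul_comm, trace_smul, trace_diff hn a b ha hb hab, smul_eq_mul]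
  norm_cast
  rw [pow_two]

theorem distSq_half (hn : 2 ≤ n) {p : ℝ} {ε : ℝ} {a b : ℝ}
    (ha : 0 ≤ a) (hb : 0 ≤ b) (hab : a + b = 1) :
    ((ε ^ p + (1 - ε ^ p) * b) ^ (1 / p) - (ε + (1 - ε) * b)) ^ 2 ≤
    distSq p (thick ε (proj2 n (√a) (√b))) (thick ε (proj2 n (√a) (-√b))) (1 / 2) := by
  have hsa : √a * √a = a := Real.mul_self_sqrt ha
  have hsb : √b * √b = b := Real.mul_self_sqrt hb
  have e1 : √a * √a + -√b * -√b = 1 := by nlinarith
  have e2 : √a * √a + √b * √b = 1 := by nlinarith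
  set P := proj2 n (√a) (√b) with hP
  set Q := proj2 n (√a) (-√b) with hQ
  have hmean : powerMean p (1 / 2) (thick ε P) (thick ε Q) =
      diagonal (fun i : Fin n => ((((if (i : ℕ) = 0 then ε ^ p + (1 - ε ^ p) * a else
        if (i : ℕ) = 1 then ε ^ p + (1 - ε ^ p) * b else ε ^ p)) ^ (1 / p) : ℝ) : ℂ)) := by
    rw [powerMean, mpow_thick p ε P (proj2_herm _ _) (proj2_idem hn _ _ e2),
      mpow_thick p ε Q (proj2_herm _ _) (proj2_idem hn _ _ e1)]
    have h3 : ((1 - 1 / 2 : ℝ) : ℂ) = ((1 / 2 : ℝ) : ℂ) := by norm_num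
    rw [h3, avg_proj a b ha hb, mpow, cfc_diagonal]
  have hk : 1 < n := hn
  have hherm : (thick ε Q - powerMean p (1 / 2) (thick ε P) (thick ε Q)).IsHermitian := by
    apply (thick_herm (proj2_herm _ _)).sub
    rw [hmean, IsHermitian, diagonal_conjTranspose]
    congr 1
    funext i
    simp
  have h4 := trace_sq_ge _ hherm ⟨1, hk⟩
  rw [distSq]
  refine le_trans (le_of_eq ?_) h4
  rw [hmean]
  have h5 : (thick ε Q) ⟨1, hk⟩ ⟨1, hk⟩ = ((ε + (1 - ε) * b : ℝ) : ℂ) := by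
    rw [thick_eq, hQ, proj2, star_vec2]
    simp only [Matrix.add_apply, Matrix.smul_apply, vecMulVec_apply, vec2, smul_eq_mul,
      Matrix.one_apply_eq]
    have hsb' : (√b : ℂ) * √b = b := by
      exact_mod_cast congrArg (fun x : ℝ => (x : ℂ)) hsb
    norm_num
    linear_combination (1 - (ε : ℂ)) * hsb'
  rw [Matrix.sub_apply, h5, diagonal_apply_eq]
  simp only [Complex.sub_re, Complex.ofReal_re]
  norm_num
  ring

end Pool.Agent.Y828.PM
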